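import Mathlib

/-!
Theorem U for the Fermat-Catalan conjecture (MP_2738db_nt): for every single `b`, almost all `c` are
in no solution together with `b`.  Statements of the blocks.  Proofs: `BLUEPRINT.md`.
-/

set_option autoImplicit false

namespace Pool.Agent.Work.MP_2738db_nt_U

open Finset

/-- the primes in `(y, 2y]` -/
noncomputable def PY (y : ℝ) : Finset ℕ := (Ioc ⌊y⌋₊ ⌊2 * y⌋₊).filter Nat.Prime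

/-- the sieving primes `q = 1 + 2 l r₁ r₂ k₀ ≤ exp t`, `r₁ < r₂` in `PY y` -/
noncomputable def SP (t y : ℝ) (l k₀ : ℕ) : Finset ℕ := by
  classical
  exact (Finset.range (⌊Real.exp t⌋₊ + 1)).filter (fun q => q.Prime ∧
    ∃ r₁ ∈ PY y, ∃ r₂ ∈ PY y, r₁ < r₂ ∧ q = 1 + 2 * l * (r₁ * r₂) * k₀)

/-- the common modulus: `q - 1` divides it for all `q ∈ SP t y l k₀` -/
noncomputable def LM (y : ℝ) (l k₀ : ℕ) : ℕ := 2 * l * k₀ * ∏ r ∈ PY y, r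

/-- the range of `k₀` -/
noncomputable def KK (t y : ℝ) (l : ℕ) : ℝ := Real.exp t / (2 * l * y ^ 2)

/-- **LOC**: the classes of `c` modulo `q` allowed by one equation. -/
def Stmt_Loc : Prop :=
  ∀ q l κ : ℕ, q.Prime → l.Prime → l ∣ q - 1 → 1 ≤ κ → 400 * (Nat.gcd κ (q - 1)) ^ 2 ≤ q →
    ∀ β ρ : ZMod q, β ≠ 0 → ρ ≠ 0 →
      6 * Nat.card {x : ZMod q // ∃ s : ZMod q, x ^ κ + β = ρ * s ^ l} ≤ 5 * q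

/-- **SMO**: few `k₀ ≤ K` have a large common divisor with a given `k ≤ exp (exp (t^(1/3)))`. -/
def Stmt_Smo : Prop :=
  ∃ T : ℝ, ∀ t K : ℝ, T ≤ t → Real.exp (t / 2) ≤ K → K ≤ Real.exp t → ∀ k : ℕ, 1 ≤ k →
    Real.log k ≤ Real.exp (t ^ (1 / 3 : ℝ)) →
    (((Icc 1 ⌊K⌋₊).filter (fun k₀ => K ^ (3 / 10 : ℝ) < (Nat.gcd k k₀ : ℝ))).card : ℝ)
      ≤ K / (256 * t)

/-- **PRI**: outside any small set `E` there is a `k₀` with many sieving primes. -/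
def Stmt_Pri : Prop :=
  ∀ A : ℕ, ∃ T : ℝ, ∀ t y : ℝ, T ≤ t → t ^ (3 / 2 : ℝ) ≤ y → y ≤ t ^ A →
    ∀ l : ℕ, 1 ≤ l → (l : ℝ) ≤ t ^ A → ∀ E : Finset ℕ, (E.card : ℝ) ≤ KK t y l / (64 * t) →
      ∃ k₀ : ℕ, k₀ ∉ E ∧ 1 ≤ k₀ ∧ (k₀ : ℝ) ≤ KK t y l ∧ 1000 * y + 1 ≤ ((SP t y l k₀).card : ℝ)

/-- **CRT**: integers up to `N` in few classes modulo each prime of a set. -/
def Stmt_Crt : Prop :=
  ∀ (Q : Finset ℕ), (∀ q ∈ Q, q.Prime) → ∀ N : ℕ, ∏ q ∈ Q, q ≤ N → ∀ P : ℕ → ℕ → Prop,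
    (∀ q ∈ Q, ∀ c c' : ℕ, (c : ZMod q) = (c' : ZMod q) → P q c → P q c') →
    (∀ q ∈ Q, 6 * Nat.card {x : Fin q // P q (x : ℕ)} ≤ 5 * q) →
    (Nat.card {c : ℕ // 1 ≤ c ∧ c ≤ N ∧ ∀ q ∈ Q, P q c} : ℝ) ≤ 2 * N * (5 / 6 : ℝ) ^ Q.card

/-- **ARL**: Archimedean two logarithms theorem for rational integers, linear in both heights. -/
def Stmt_Arl : Prop :=
  ∃ C : ℝ, 1 ≤ C ∧ ∀ (X Y k₀ l : ℕ) (A B : ℝ), 2 ≤ X → 2 ≤ Y → 1 ≤ k₀ → 1 ≤ l →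
    Nat.Coprime l k₀ → 1 ≤ A → 1 ≤ B → Real.log X ≤ A → Real.log Y ≤ B → (k₀ : ℝ) ≤ A * l →
    30000 * B * (1 + Real.log l) ≤ l →
    Real.exp (-(C * (A * B) * (1 + Real.log l) ^ 2)) ≤ |l * Real.log X - k₀ * Real.log Y|

/-- **STEP**: prime exponents `l` of `a` are bounded if `b * c` has a small prime factor. -/
def Stmt_Step : Prop :=
  ∃ C : ℝ, 1 ≤ C ∧ ∀ (a b c n k l p : ℕ) (w U : ℝ), 2 ≤ a → 2 ≤ b → 2 ≤ c → Nat.Coprime b c →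
    1 ≤ n → 1 ≤ k → l.Prime → p.Prime → p ∣ b * c → 2 ≤ w → (p : ℝ) ≤ w → 1 ≤ U →
    Real.log b ≤ U → Real.log c ≤ U → C * w ^ 2 * U ^ 2 * (1 + Real.log l) ^ 2 < l →
    a ^ l + b ^ n ≠ c ^ k ∧ b ^ n + c ^ k ≠ a ^ l ∧ c ^ k + a ^ l ≠ b ^ n

/-- the set of `c ≤ N` counted in the theorem -/
def Exc (N b : ℕ) (w V : ℝ) : Set ℕ :=
  {c : ℕ | 1 ≤ c ∧ c ≤ N ∧ Nat.Coprime b c ∧ (∃ p : ℕ, p.Prime ∧ p ∣ b * c ∧ (p : ℝ) ≤ w) ∧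
    ∃ a m n k : ℕ, 1 ≤ a ∧ 2 ≤ m ∧ 1 ≤ n ∧ 1 ≤ k ∧ Real.log k ≤ V ∧
      (a ^ m + b ^ n = c ^ k ∨ b ^ n + c ^ k = a ^ m ∨ c ^ k + a ^ m = b ^ n)}

/-- the theorem -/
def Stmt_U : Prop :=
  ∀ ε : ℝ, 0 < ε → ε < 1 → ∃ δ : ℝ, 0 < δ ∧ ∃ N₀ : ℕ, ∀ N : ℕ, N₀ ≤ N → ∀ b : ℕ, 2 ≤ b →
    Real.log b ≤ (Real.log N) ^ (1 / ε) →
    ((Exc N b ((Real.log N) ^ (1 / ε)) (Real.exp ((Real.log N) ^ δ))).ncard : ℝ)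
      ≤ N * Real.exp (-(Real.log N) ^ (1 - ε))

end Pool.Agent.Work.MP_2738db_nt_U
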